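import Pool.Agent.Work.MP_65e34f.Basic

/-! # MP_65e34f : block TLO (lower bound in the triangle type) -/

namespace Pool.FG.helper68

open Matrix Pool.FG

section
variable {K : Type} [Field K]

lemma pow_neg_Sc {x : SL K} {m : ℕ} (h : Sc ((-x) ^ m)) : Sc (x ^ m) := by
  rcases Nat.even_or_odd m with hm | hm
  · rwa [hm.neg_pow] at h
  · rw [hm.neg_pow] at h
    exact Sc_neg_iff.mp h

/-- the triple of a pair -/
def trip (w : SL K × SL K) : List (SL K) × (Fin Wd.zero.n → SL K) :=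
  ([w.1, w.2, (w.1 * w.2)⁻¹], fun i => i.elim0)

lemma trip_inj : Function.Injective (trip (K := K)) := by
  rintro ⟨a, b⟩ ⟨c, d⟩ h
  have h1 : [a, b, (a * b)⁻¹] = [c, d, (c * d)⁻¹] := (Prod.ext_iff.mp h).1
  have h2 := List.cons.inj h1
  have h3 := List.cons.inj h2.2
  exact Prod.ext h2.1 h3.1

/-- pairs give triples -/
lemma trip_mem {m1 m2 m3 : ℕ} {w : SL K × SL K} (h1 : Sc (w.1 ^ m1)) (h2 : Sc (w.2 ^ m2))
    (h3 : Sc (((w.1 * w.2)⁻¹) ^ m3)) : trip w ∈ Tup .zero [m1, m2, m3] (⊤ : Subgroup (SL K)) := by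
  refine ⟨?_, fun j => Subgroup.mem_top _, ?_⟩
  · refine cons_mem_Xs.mpr ⟨Subgroup.mem_top _, h1, cons_mem_Xs.mpr ⟨Subgroup.mem_top _, h2,
      cons_mem_Xs.mpr ⟨Subgroup.mem_top _, h3, ?_⟩⟩⟩
    simp
  · change Sc ([w.1, w.2, (w.1 * w.2)⁻¹].prod)
    have : [w.1, w.2, (w.1 * w.2)⁻¹].prod = 1 := by simp
    rw [this]
    exact Sc_one

/-- the number of nonscalar elements of a given trace -/
lemma ncard_nonSc [Finite K] (hTRC : Stmt_TRC) (τ : K) :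
    Nat.card K ^ 2 ≤ Set.ncard {x : SL K | ¬ Sc x ∧ tr x = τ} + Nat.card K + 2 := by
  have h1 := (hTRC K 1 τ one_ne_zero).2.2.1
  have h2 : {x : SL K | tr x = τ} ⊆ {x : SL K | ¬ Sc x ∧ tr x = τ} ∪ {x : SL K | Sc x} := by
    intro x hx
    by_cases h : Sc x
    · exact Or.inr h
    · exact Or.inl ⟨h, hx⟩
  have h3 := (Set.ncard_le_ncard h2 (Set.toFinite _)).trans (Set.ncard_union_le _ _)
  have h4 := ncard_Sc_le (K := K)
  omega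

end

theorem stmt_TLO (hKAP : Stmt_KAP) (hTWO : Stmt_TWO) (hTRC : Stmt_TRC) (hCNJ : Stmt_CNJ) :
    Stmt_TLO := by
  refine ⟨2, 8, ?_⟩
  intro K _ _ m1 m2 m3 hN hm1 hm2 hm3 hL1 hL2 hL3 hp h12 h13 h23
  obtain ⟨y1, hy1, hy1'⟩ := id hL1
  obtain ⟨y2, hy2, hy2'⟩ := id hL2
  obtain ⟨y3, hy3, hy3'⟩ := id hL3
  have hkap := hKAP K m1 m2 m3 hm1 hm2 hm3 hp h12 h13 h23 (tr y1) ⟨y1, hy1, hy1', rfl⟩ (tr y2)
    ⟨y2, hy2, hy2', rfl⟩ (tr y3) ⟨y3, hy3, hy3', rfl⟩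
  obtain ⟨s, hs, hs3⟩ : ∃ s : K, kap (tr y1) (tr y2) s ≠ 2 ∧ (s = tr y3 ∨ s = -tr y3) := by
    rcases hkap with h | h
    · exact ⟨_, h, Or.inl rfl⟩
    · exact ⟨_, h, Or.inr rfl⟩
  have hpow : ∀ z : SL K, tr z = s → Sc (z⁻¹ ^ m3) := by
    intro z hz
    rcases hs3 with h | h
    · exact (hCNJ K).2 y3 z⁻¹ m3 hy3 hy3' (by rw [tr_inv, hz, h])
    · exact pow_neg_Sc ((hCNJ K).2 y3 (-z⁻¹) m3 hy3 hy3' (by rw [tr_neg, tr_inv, hz, h, neg_neg]))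
  set A : Set (SL K) := {x : SL K | ¬ Sc x ∧ tr x = tr y1} with hA
  set T : SL K → Set (SL K) := fun a => {x : SL K | tr x = tr y2 ∧ tr (a * x) = s} with hT
  have hAn := ncard_nonSc hTRC (tr y1)
  have hTn : ∀ a ∈ A, Nat.card K - 3 ≤ (T a).ncard := by
    intro a ha
    have h := (hTWO K a ha.1 (tr y2) s).2 (by rw [ha.2]; exact hs)
    have h2 : Nat.card K ≤ (T a).ncard + 3 := h
    omega
  have h1 := le_ncard_prod (Set.toFinite A) T (fun a _ => Set.toFinite _) _ hTn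
  have h2 : Set.ncard {w : SL K × SL K | w.1 ∈ A ∧ w.2 ∈ T w.1} ≤
      (Tup .zero [m1, m2, m3] (⊤ : Subgroup (SL K))).ncard := by
    rw [← Set.ncard_image_of_injective _ trip_inj]
    apply Set.ncard_le_ncard _ (Tup_finite _ _ _)
    rintro _ ⟨w, ⟨hw1, hw2⟩, rfl⟩
    exact trip_mem ((hCNJ K).2 y1 w.1 m1 hy1 hy1' hw1.2) ((hCNJ K).2 y2 w.2 m2 hy2 hy2' hw2.1)
      (hpow _ hw2.2)
  obtain ⟨q, hq⟩ : ∃ q, Nat.card K = q + 8 := ⟨Nat.card K - 8, by omega⟩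
  rw [hq] at hAn h1 ⊢
  have h3 : (q + 8 - 3) = q + 5 := by omega
  rw [h3] at h1
  have h4 : (q + 8) ^ 2 ≤ A.ncard + (q + 8) + 2 := hAn
  have h5 : q ^ 2 + 15 * q + 54 ≤ A.ncard := by nlinarith
  have h6 := Nat.mul_le_mul_right (q + 5) h5
  have h7 : (q + 8) ^ 3 ≤ 2 * ((q ^ 2 + 15 * q + 54) * (q + 5)) := by
    ring_nf
    nlinarith [sq_nonneg q, Nat.zero_le (q ^ 3)]
  omega

end Pool.FG.helper68
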